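import Pool.Agent.Q264.LK.Stm

/-!
Project LK (helper264), job EP, with tools for the label measure.
-/

set_option autoImplicit false

open Finset MeasureTheory Filter Topology
open scoped Classical

namespace Pool.Agent.Q121.LK

open Pool.Agent.Q264.LK

variable {V : Type} [Fintype V]

instance isProb_unit : IsProbabilityMeasure ((volume : Measure ℝ).restrict (Set.Icc 0 1)) :=
  ⟨by rw [Measure.restrict_apply_univ, Real.volume_Icc]; norm_num⟩

instance isProb_uu : IsProbabilityMeasure (uu V) := by
  unfold uu
  infer_instance

theorem lo_eq_iff (U : V → ℝ) (p : ℝ) (B : Finset V) :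
    lo U p = B ↔ U ∈ Set.univ.pi (fun v => if v ∈ B then Set.Iic p else Set.Ioi p) := by
  constructor
  · intro h v _
    by_cases hv : v ∈ B
    · simp only [hv, if_true]
      rw [← h] at hv
      exact (Finset.mem_filter.1 hv).2
    · simp only [hv, if_false]
      rw [← h] at hv
      by_contra hc
      exact hv (Finset.mem_filter.2 ⟨Finset.mem_univ _, not_lt.1 hc⟩)
  · intro h
    ext v
    have hv := h v (Set.mem_univ v)
    by_cases hB : v ∈ B
    · simp only [hB, if_true] at hv
      exact ⟨fun _ => hB, fun _ => Finset.mem_filter.2 ⟨Finset.mem_univ _, hv⟩⟩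
    · simp only [hB, if_false] at hv
      refine ⟨fun hc => ?_, fun hc => absurd hc hB⟩
      exact absurd (Finset.mem_filter.1 hc).2 (not_le.2 hv)

theorem lo_set (p : ℝ) (B : Finset V) :
    {U : V → ℝ | lo U p = B} = Set.univ.pi (fun v => if v ∈ B then Set.Iic p else Set.Ioi p) := by
  ext U
  exact lo_eq_iff U p B

theorem meas_lo (p : ℝ) (B : Finset V) : MeasurableSet {U : V → ℝ | lo U p = B} := by
  rw [lo_set]
  refine MeasurableSet.univ_pi fun v => ?_
  by_cases hv : v ∈ B
  · simp only [hv, if_true]
    exact measurableSet_Iic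
  · simp only [hv, if_false]
    exact measurableSet_Ioi

/-- functions of finitely many values -/
theorem measurable_fin {Z : Type} [Finite Z] (ℓ : (V → ℝ) → Z)
    (hℓ : ∀ z, MeasurableSet {U | ℓ U = z}) (H : Z → ℝ) : Measurable (fun U => H (ℓ U)) := by
  let _ : MeasurableSpace Z := ⊤
  have h1 : Measurable ℓ := by
    have : Countable Z := inferInstance
    exact measurable_to_countable' hℓ
  exact (measurable_from_top (f := H)).comp h1

theorem integrable_fin {Z : Type} [Fintype Z] (μ : Measure (V → ℝ)) [IsFiniteMeasure μ]
    (ℓ : (V → ℝ) → Z) (hℓ : ∀ z, MeasurableSet {U | ℓ U = z}) (H : Z → ℝ) :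
    Integrable (fun U => H (ℓ U)) μ := by
  refine Integrable.of_bound (measurable_fin ℓ hℓ H).aestronglyMeasurable (∑ z, |H z|) ?_
  refine Eventually.of_forall fun U => ?_
  rw [Real.norm_eq_abs]
  exact Finset.single_le_sum (f := fun z => |H z|) (fun z _ => abs_nonneg _) (Finset.mem_univ (ℓ U))

theorem t_EP : S_EP := by
  intro V _ p hp0 hp1 F
  have h1 : ∀ U : V → ℝ, F (lo U p)
      = ∑ B : Finset V, Set.indicator {U : V → ℝ | lo U p = B} (fun _ => F B) U := by
    intro U
    rw [Finset.sum_eq_single (lo U p)]
    · rw [Set.indicator_of_mem]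
      rfl
    · intro B _ hB
      rw [Set.indicator_of_notMem]
      exact fun h => hB h.symm
    · intro h
      exact absurd (Finset.mem_univ _) h
  simp only [h1]
  rw [integral_finsetSum]
  · unfold Ep
    refine Finset.sum_congr rfl fun B _ => ?_
    rw [integral_indicator (meas_lo p B), setIntegral_const, smul_eq_mul]
    congr 1
    rw [measureReal_def, lo_set]
    unfold uu
    rw [Measure.pi_pi]
    have h2 : ∀ v : V, ((volume : Measure ℝ).restrict (Set.Icc 0 1))
        (if v ∈ B then Set.Iic p else Set.Ioi p) = ENNReal.ofReal (if v ∈ B then p else 1 - p) := by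
      intro v
      by_cases hv : v ∈ B
      · simp only [hv, if_true]
        rw [Measure.restrict_apply measurableSet_Iic]
        have : Set.Iic p ∩ Set.Icc 0 1 = Set.Icc 0 p := by
          ext x
          simp only [Set.mem_inter_iff, Set.mem_Iic, Set.mem_Icc]
          constructor
          · rintro ⟨h1, h2, _⟩
            exact ⟨h2, h1⟩
          · rintro ⟨h1, h2⟩
            exact ⟨h2, h1, h2.trans hp1⟩
        rw [this, Real.volume_Icc, sub_zero]
      · simp only [hv, if_false]
        rw [Measure.restrict_apply measurableSet_Ioi]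
        have : Set.Ioi p ∩ Set.Icc 0 1 = Set.Ioc p 1 := by
          ext x
          simp only [Set.mem_inter_iff, Set.mem_Ioi, Set.mem_Icc, Set.mem_Ioc]
          constructor
          · rintro ⟨h1, _, h3⟩
            exact ⟨h1, h3⟩
          · rintro ⟨h1, h2⟩
            exact ⟨h1, hp0.trans h1.le, h2⟩
        rw [this, Real.volume_Ioc]
    simp only [h2]
    rw [← ENNReal.ofReal_prod_of_nonneg, ENNReal.toReal_ofReal]
    · rw [Finset.prod_ite, Finset.prod_const, Finset.prod_const]
      have h3 : (Finset.univ.filter (fun v => v ∈ B)) = B := by ext; simp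
      have h4 : (Finset.univ.filter (fun v => v ∉ B)) = Bᶜ := by ext; simp
      rw [h3, h4, Finset.card_compl]
    · refine Finset.prod_nonneg fun v _ => ?_
      split_ifs <;> linarith
    · intro v _
      split_ifs <;> linarith
  · intro B _
    exact (integrable_const _).indicator (meas_lo p B)

end Pool.Agent.Q121.LK
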