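import Pool.Agent.Q264.LK.Stm
import Pool.Agent.Q121.LK.EP

/-!
Project LK (helper264), job GRID.
-/

set_option autoImplicit false

open Finset MeasureTheory Filter Topology
open scoped Classical

namespace Pool.Agent.Q121.LK

open Pool.Agent.Q264.LK

/-- adding vertices raises the number of components by at most one each -/
theorem cc_add {V : Type} [Fintype V] (G : SimpleGraph V) (A B : Finset V) (h : A ⊆ B) :
    (CC G (B : Set V) : ℝ) ≤ CC G (A : Set V) + ((B.card : ℝ) - A.card) := by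
  have hAB : (A : Set V) ⊆ (B : Set V) := Finset.coe_subset.2 h
  have key : CC G (B : Set V) ≤ CC G (A : Set V) + (B \ A).card := by
    unfold CC
    let f : (G.induce (A : Set V)).ConnectedComponent ⊕ {v // v ∈ B \ A} →
        (G.induce (B : Set V)).ConnectedComponent :=
      Sum.elim (fun c => c.map (SimpleGraph.induceHomOfLE G hAB).toHom)
        (fun v => (G.induce (B : Set V)).connectedComponentMk ⟨v.1, (Finset.mem_sdiff.1 v.2).1⟩)
    have hf : Function.Surjective f := by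
      intro c
      obtain ⟨v, rfl⟩ := c.exists_rep
      by_cases hv : v.1 ∈ A
      · exact ⟨Sum.inl ((G.induce (A : Set V)).connectedComponentMk ⟨v.1, hv⟩), rfl⟩
      · exact ⟨Sum.inr ⟨v.1, Finset.mem_sdiff.2 ⟨v.2, hv⟩⟩, rfl⟩
    have h1 := Nat.card_le_card_of_surjective f hf
    rw [Nat.card_sum] at h1
    refine h1.trans (le_of_eq ?_)
    congr 1
    rw [Nat.card_eq_fintype_card, Fintype.card_coe]
  have h2 : ((B \ A).card : ℝ) = (B.card : ℝ) - A.card := by
    rw [Finset.card_sdiff_of_subset h, Nat.cast_sub (Finset.card_le_card h)]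
  have h3 : (CC G (B : Set V) : ℝ) ≤ CC G (A : Set V) + (B \ A).card := by exact_mod_cast key
  rw [h2] at h3
  exact h3

theorem cc_comap {V : Type} {n : ℕ} (e : Fin n ≃ V) (G : SimpleGraph V) (S : Set (Fin n)) :
    CC (G.comap e) S = CC G (e '' S) := by
  unfold CC
  let φ : (G.comap e).induce S ≃g G.induce (e '' S) :=
    { toEquiv := e.image S
      map_rel_iff' := by
        intro a b
        exact Iff.rfl }
  exact Nat.card_congr φ.connectedComponentEquiv

/-- the function of the grid -/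
noncomputable def hh {V : Type} [Fintype V] (G : SimpleGraph V) (M : ℕ) (U : V → ℝ) : ℝ :=
  ⨆ j : Fin M, ((CC G (lo U ((j : ℝ) / M) : Set V) : ℝ) +
      (((lo U (((j : ℝ) + 1) / M)).card : ℝ) - ((lo U ((j : ℝ) / M)).card : ℝ)))

theorem hh_ge {V : Type} [Fintype V] (G : SimpleGraph V) (M : ℕ) (U : V → ℝ) (j : Fin M) :
    (CC G (lo U ((j : ℝ) / M) : Set V) : ℝ) +
      (((lo U (((j : ℝ) + 1) / M)).card : ℝ) - ((lo U ((j : ℝ) / M)).card : ℝ)) ≤ hh G M U :=
  le_ciSup (f := fun j : Fin M => (CC G (lo U ((j : ℝ) / M) : Set V) : ℝ) +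
      (((lo U (((j : ℝ) + 1) / M)).card : ℝ) - ((lo U ((j : ℝ) / M)).card : ℝ)))
      (Set.finite_range _).bddAbove j

/-- the pointwise inequality -/
theorem pt {V : Type} [Fintype V] {n : ℕ} (e : Fin n ≃ V) (G : SimpleGraph V) (M : ℕ) (hM : 0 < M)
    (U : V → ℝ) (hU : ∀ v, 0 < U v ∧ U v ≤ 1) (ρ : Fin n ≃ V) (hρ : Monotone (U ∘ ρ))
    (σ : Equiv.Perm (Fin n)) (t : ℕ) (ht1 : 1 ≤ t) (htn : t ≤ n) :
    (CC (G.comap e) (act σ t) : ℝ) ≤ hh G M (fun v => U (ρ (σ.symm (e.symm v)))) := by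
  set U' : V → ℝ := fun v => U (ρ (σ.symm (e.symm v))) with hU'
  set p : ℝ := U (ρ ⟨t - 1, by omega⟩) with hp
  have hM' : (0 : ℝ) < M := Nat.cast_pos.2 hM
  have hp0 : 0 < p * M := mul_pos (hU _).1 hM'
  have hp1 : p * M ≤ M := by
    have := (hU (ρ ⟨t - 1, by omega⟩)).2
    nlinarith
  have hc1 : 0 < ⌈p * M⌉₊ := Nat.ceil_pos.2 hp0
  have hcM : ⌈p * M⌉₊ ≤ M := Nat.ceil_le.2 hp1
  obtain ⟨j, hj⟩ : ∃ j : ℕ, ⌈p * M⌉₊ = j + 1 := ⟨⌈p * M⌉₊ - 1, by omega⟩
  have hjM : j < M := by omega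
  have hj1 : (j : ℝ) / M < p := by
    rw [div_lt_iff₀ hM']
    have := Nat.ceil_lt_add_one hp0.le
    rw [hj] at this
    push_cast at this
    linarith
  have hj2 : p ≤ ((j : ℝ) + 1) / M := by
    rw [le_div_iff₀ hM']
    have := Nat.le_ceil (p * M)
    rw [hj] at this
    push_cast at this
    exact this
  set Z : Finset V := Finset.univ.filter (fun v => ∃ i : Fin n, i.val < t ∧ e (σ i) = v) with hZ
  have hZ' : (Z : Set V) = e '' act σ t := by
    ext v
    simp only [hZ, Finset.coe_filter, Finset.mem_univ, true_and, Set.mem_image, act]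
    constructor
    · rintro ⟨i, hi, rfl⟩
      exact ⟨σ i, ⟨i, hi, rfl⟩, rfl⟩
    · rintro ⟨w, ⟨i, hi, rfl⟩, rfl⟩
      exact ⟨i, hi, rfl⟩
  have hval : ∀ i : Fin n, U' (e (σ i)) = U (ρ i) := by
    intro i
    simp [hU']
  have hAZ : lo U' ((j : ℝ) / M) ⊆ Z := by
    intro v hv
    have hv' : U' v ≤ (j : ℝ) / M := (Finset.mem_filter.1 hv).2
    obtain ⟨i, rfl⟩ : ∃ i : Fin n, e (σ i) = v := ⟨σ.symm (e.symm v), by simp⟩
    rw [hval] at hv'
    refine Finset.mem_filter.2 ⟨Finset.mem_univ _, i, ?_, rfl⟩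
    by_contra hlt
    have h1 : (⟨t - 1, by omega⟩ : Fin n) ≤ i := by
      show t - 1 ≤ i.val
      omega
    have h2 := hρ h1
    simp only [Function.comp] at h2
    linarith
  have hZB : Z ⊆ lo U' (((j : ℝ) + 1) / M) := by
    intro v hv
    obtain ⟨i, hi, rfl⟩ := (Finset.mem_filter.1 hv).2
    refine Finset.mem_filter.2 ⟨Finset.mem_univ _, ?_⟩
    rw [hval]
    have h1 : i ≤ (⟨t - 1, by omega⟩ : Fin n) := by
      show i.val ≤ t - 1
      omega
    have h2 := hρ h1
    simp only [Function.comp] at h2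
    linarith
  have h1 := hh_ge G M U' ⟨j, hjM⟩
  have h2 := cc_add G _ _ hAZ
  have h3 : (Z.card : ℝ) ≤ (lo U' (((j : ℝ) + 1) / M)).card := by
    exact_mod_cast Finset.card_le_card hZB
  rw [cc_comap, ← hZ']
  simp only at h1
  linarith

/-- integrability of the grid function -/
theorem hh_int {V : Type} [Fintype V] (G : SimpleGraph V) (M : ℕ) :
    Integrable (hh G M) (uu V) := by
  let ℓ : (V → ℝ) → (Fin (M + 1) → Finset V) := fun U j => lo U ((j : ℕ) / M)
  have hℓ : ∀ z, MeasurableSet {U | ℓ U = z} := by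
    intro z
    have : {U : V → ℝ | ℓ U = z} = ⋂ j : Fin (M + 1), {U | lo U ((j : ℕ) / M) = z j} := by
      ext U
      simp only [Set.mem_iInter]
      constructor
      · intro h j
        exact congrFun h j
      · intro h
        exact funext h
    rw [this]
    exact MeasurableSet.iInter fun j => meas_lo _ _
  have h := integrable_fin (uu V) ℓ hℓ (fun z => ⨆ j : Fin M,
    ((CC G (z j.castSucc : Set V) : ℝ) + (((z j.succ).card : ℝ) - ((z j.castSucc).card : ℝ))))
  refine h.congr (Eventually.of_forall fun U => ?_)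
  unfold hh
  simp only [ℓ, Fin.val_castSucc, Fin.val_succ, Nat.cast_add, Nat.cast_one]

theorem perm_pres {V : Type} [Fintype V] (τ : Equiv.Perm V) :
    MeasurePreserving (fun U : V → ℝ => fun v => U (τ v)) (uu V) (uu V) := by
  have h := measurePreserving_arrowCongr'
    (fun _ : V => (volume : Measure ℝ).restrict (Set.Icc 0 1))
    (fun _ : V => (volume : Measure ℝ).restrict (Set.Icc 0 1)) τ.symm (MeasurableEquiv.refl ℝ)
    (fun _ => MeasurePreserving.id _)
  exact h

theorem ae_pos {V : Type} [Fintype V] : ∀ᵐ U ∂(uu V), ∀ v, 0 < U v ∧ U v ≤ 1 := by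
  rw [ae_all_iff]
  intro v
  have h1 : ∀ᵐ x ∂((volume : Measure ℝ).restrict (Set.Icc 0 1)), 0 < x ∧ x ≤ 1 := by
    have h2 : ∀ᵐ x ∂((volume : Measure ℝ).restrict (Set.Icc 0 1)), x ≠ 0 :=
      (Measure.ae_ne _ 0)
    filter_upwards [h2, ae_restrict_mem measurableSet_Icc] with x hx hx2
    exact ⟨lt_of_le_of_ne hx2.1 (Ne.symm hx), hx2.2⟩
  have h3 := Measure.tendsto_eval_ae_ae
    (μ := fun _ : V => (volume : Measure ℝ).restrict (Set.Icc 0 1)) (i := v)
  exact h3.eventually h1

theorem t_GRID : S_GRID := by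
  intro n V _ e G M hn hM
  change mm (G.comap e) ≤ ∫ U, hh G M U ∂(uu V)
  unfold mm
  refine csSup_le ?_ ?_
  · refine ⟨_, fun _ => 1, ⟨fun _ => ⟨le_rfl, hn⟩, fun _ _ _ => rfl⟩, rfl⟩
  · rintro _ ⟨A, hA, rfl⟩
    unfold Pool.Agent.Q264.LK.val
    have hfac : (0 : ℝ) < n.factorial := Nat.cast_pos.2 (Nat.factorial_pos n)
    rw [div_le_iff₀ hfac]
    have hint : ∀ τ : Equiv.Perm V, Integrable (fun U : V → ℝ => hh G M (fun v => U (τ v))) (uu V) :=
      fun τ => (perm_pres τ).integrable_comp_of_integrable (hh_int G M)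
    have hsame : ∀ τ : Equiv.Perm V, ∫ U, hh G M (fun v => U (τ v)) ∂(uu V)
        = ∫ U, hh G M U ∂(uu V) := by
      intro τ
      have h1 := integral_map (μ := uu V) (φ := fun U : V → ℝ => fun v => U (τ v))
        (perm_pres τ).measurable.aemeasurable (f := hh G M)
        (by rw [(perm_pres τ).map_eq]; exact (hh_int G M).aestronglyMeasurable)
      rw [(perm_pres τ).map_eq] at h1
      exact h1.symm
    have hcard : Fintype.card V = n := by
      rw [← Fintype.card_congr e, Fintype.card_fin]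
    have hsum : ∫ U, (∑ τ : Equiv.Perm V, hh G M (fun v => U (τ v))) ∂(uu V)
        = (∫ U, hh G M U ∂(uu V)) * n.factorial := by
      rw [integral_finsetSum _ fun τ _ => hint τ]
      simp only [hsame]
      rw [Finset.sum_const, Finset.card_univ, Fintype.card_perm, hcard, nsmul_eq_mul, mul_comm]
    rw [← hsum]
    have hconst : (∑ σ : Equiv.Perm (Fin n), (CC (G.comap e) (act σ (A σ)) : ℝ))
        = ∫ _U : V → ℝ, (∑ σ : Equiv.Perm (Fin n), (CC (G.comap e) (act σ (A σ)) : ℝ)) ∂(uu V) := by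
      simp
    rw [hconst]
    refine integral_mono_ae (integrable_const _) (integrable_finsetSum _ fun τ _ => hint τ) ?_
    filter_upwards [ae_pos (V := V)] with U hU
    let ρ : Fin n ≃ V := (Tuple.sort (U ∘ e)).trans e
    have hρ : Monotone (U ∘ ρ) := Tuple.monotone_sort (U ∘ e)
    have h1 : ∑ σ : Equiv.Perm (Fin n), hh G M (fun v => U (ρ (σ.symm (e.symm v))))
        = ∑ τ : Equiv.Perm V, hh G M (fun v => U (τ v)) := by
      let E : Equiv.Perm (Fin n) ≃ Equiv.Perm V :=
        { toFun := fun σ => (e.symm.trans σ.symm).trans ρ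
          invFun := fun τ => ((e.trans τ).trans ρ.symm).symm
          left_inv := by
            intro σ
            ext i
            simp
          right_inv := by
            intro τ
            ext v
            simp }
      exact Fintype.sum_equiv E _ _ fun σ => rfl
    show ∑ σ : Equiv.Perm (Fin n), (CC (G.comap e) (act σ (A σ)) : ℝ)
      ≤ ∑ τ : Equiv.Perm V, hh G M (fun v => U (τ v))
    rw [← h1]
    refine Finset.sum_le_sum fun σ _ => ?_
    exact pt e G M hM U hU ρ hρ σ (A σ) (hA.1 σ).1 (hA.1 σ).2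

end Pool.Agent.Q121.LK
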