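import Pool.Agent.Q264.LK.Stm
import Pool.Agent.Q121.LK.GRID

/-!
Project LK (helper264), job BLOCK.
-/

set_option autoImplicit false

open Finset MeasureTheory Filter Topology
open scoped Classical

namespace Pool.Agent.Q121.LK.BLOCK

open Pool.Agent.Q264.LK Pool.Agent.Q121.LK

/-- the labels of the clique and of the copies -/
def Φ (k L : ℕ) (W : Type) (z : (Fin k → ℝ) × (Fin L → W → ℝ)) : Fin k ⊕ (Fin L × W) → ℝ :=
  Sum.elim z.1 (fun x => z.2 x.1 x.2)

theorem Φ_meas (k L : ℕ) (W : Type) [Fintype W] : Measurable (Φ k L W) := by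
  rw [measurable_pi_iff]
  rintro (i | x)
  · exact (measurable_pi_apply i).comp measurable_fst
  · exact (measurable_pi_apply x.2).comp ((measurable_pi_apply x.1).comp measurable_snd)

theorem Φ_pres (k L : ℕ) (W : Type) [Fintype W] :
    MeasurePreserving (Φ k L W) ((uu (Fin k)).prod (Measure.pi fun _ : Fin L => uu W))
      (uu (Fin k ⊕ (Fin L × W))) := by
  refine ⟨Φ_meas k L W, ?_⟩
  symm
  refine Measure.pi_eq fun s hs => ?_
  rw [Measure.map_apply (Φ_meas k L W) (MeasurableSet.univ_pi hs)]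
  have h1 : Φ k L W ⁻¹' (Set.univ.pi s) = (Set.univ.pi fun i => s (Sum.inl i)) ×ˢ
      (Set.univ.pi fun l : Fin L => Set.univ.pi fun w : W => s (Sum.inr (l, w))) := by
    ext z
    simp only [Set.mem_preimage, Set.mem_univ_pi, Set.mem_prod]
    constructor
    · intro h
      exact ⟨fun i => h (Sum.inl i), fun l w => h (Sum.inr (l, w))⟩
    · rintro ⟨h1, h2⟩ (i | x)
      · exact h1 i
      · exact h2 x.1 x.2
  rw [h1, Measure.prod_prod]
  unfold uu
  rw [Measure.pi_pi, Measure.pi_pi]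
  simp only [Measure.pi_pi]
  rw [Fintype.prod_sum_type, Fintype.prod_prod_type]

theorem lo_card (k L : ℕ) (W : Type) [Fintype W] (z : (Fin k → ℝ) × (Fin L → W → ℝ)) (q : ℝ) :
    (lo (Φ k L W z) q).card = (lo z.1 q).card + ∑ l : Fin L, (lo (z.2 l) q).card := by
  unfold lo
  simp only [Finset.card_filter]
  rw [Fintype.sum_sum_type, Fintype.sum_prod_type]
  rfl

theorem lo_inr (k L : ℕ) (W : Type) [Fintype W] (z : (Fin k → ℝ) × (Fin L → W → ℝ)) (q : ℝ)
    (l : Fin L) : {w : W | (Sum.inr (l, w) : Fin k ⊕ (Fin L × W)) ∈ lo (Φ k L W z) q}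
      = (lo (z.2 l) q : Set W) := by
  ext w
  unfold lo
  simp only [Finset.coe_filter, Finset.mem_univ, true_and, Finset.mem_filter]
  rfl

/-- the function of one block -/
noncomputable def psi {W : Type} [Fintype W] (H : SimpleGraph W) (M : ℕ) (j : Fin M) (u : W → ℝ) : ℝ :=
  (CC H (lo u ((j : ℝ) / M) : Set W) : ℝ) +
    (((lo u (((j : ℝ) + 1) / M)).card : ℝ) - ((lo u ((j : ℝ) / M)).card : ℝ))

theorem lo_mono {W : Type} [Fintype W] (u : W → ℝ) {p q : ℝ} (h : p ≤ q) : lo u p ⊆ lo u q := by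
  intro v hv
  exact Finset.mem_filter.2 ⟨Finset.mem_univ _, (Finset.mem_filter.1 hv).2.trans h⟩

theorem cc_le {W : Type} [Fintype W] (H : SimpleGraph W) (B : Finset W) :
    CC H (B : Set W) ≤ B.card := by
  unfold CC
  have h := Nat.card_le_card_of_surjective
    (fun v : {v // v ∈ B} => (H.induce (B : Set W)).connectedComponentMk ⟨v.1, v.2⟩) (by
      intro c
      obtain ⟨v, rfl⟩ := c.exists_rep
      exact ⟨⟨v.1, v.2⟩, rfl⟩)
  rwa [Nat.card_eq_fintype_card (α := {v // v ∈ B}), Fintype.card_coe] at h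

theorem step_le {M : ℕ} (hM : 0 < M) (j : Fin M) : ((j : ℝ) / M) ≤ (((j : ℝ) + 1) / M) := by
  have : (0 : ℝ) < M := Nat.cast_pos.2 hM
  gcongr
  linarith

theorem psi_abs {W : Type} [Fintype W] (H : SimpleGraph W) {M : ℕ} (hM : 0 < M) (j : Fin M)
    (u : W → ℝ) : |psi H M j u| ≤ 2 * Fintype.card W := by
  have h1 : (CC H (lo u ((j : ℝ) / M) : Set W) : ℝ) ≤ Fintype.card W := by
    exact_mod_cast (cc_le H _).trans (Finset.card_le_univ _)
  have h2 : ((lo u ((j : ℝ) / M)).card : ℝ) ≤ ((lo u (((j : ℝ) + 1) / M)).card : ℝ) := by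
    exact_mod_cast Finset.card_le_card (lo_mono u (step_le hM j))
  have h3 : ((lo u (((j : ℝ) + 1) / M)).card : ℝ) ≤ Fintype.card W := by
    exact_mod_cast Finset.card_le_univ _
  have h4 : (0 : ℝ) ≤ CC H (lo u ((j : ℝ) / M) : Set W) := Nat.cast_nonneg _
  have h5 : (0 : ℝ) ≤ ((lo u ((j : ℝ) / M)).card : ℝ) := Nat.cast_nonneg _
  unfold psi
  rw [abs_le]
  constructor <;> linarith

theorem psi_meas {W : Type} [Fintype W] (H : SimpleGraph W) (M : ℕ) (j : Fin M) :
    Measurable (psi H M j) := by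
  have h := measurable_fin (fun u : W → ℝ => (lo u ((j : ℝ) / M), lo u (((j : ℝ) + 1) / M)))
    (by
      rintro ⟨A, B⟩
      have : {U : W → ℝ | (lo U ((j : ℝ) / M), lo U (((j : ℝ) + 1) / M)) = (A, B)}
          = {U | lo U ((j : ℝ) / M) = A} ∩ {U | lo U (((j : ℝ) + 1) / M) = B} := by
        ext U
        constructor
        · intro h
          exact ⟨(Prod.mk.inj h).1, (Prod.mk.inj h).2⟩
        · rintro ⟨h1, h2⟩
          exact Prod.ext h1 h2
      rw [this]
      exact (meas_lo _ _).inter (meas_lo _ _))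
    (fun z => (CC H (z.1 : Set W) : ℝ) + ((z.2.card : ℝ) - (z.1.card : ℝ)))
  exact h

theorem int_fin {W : Type} [Fintype W] (p : ℝ) (F : Finset W → ℝ) :
    Integrable (fun u : W → ℝ => F (lo u p)) (uu W) :=
  integrable_fin (uu W) (fun u => lo u p) (fun z => meas_lo p z) F

theorem exp_card {W : Type} [Fintype W] (p : ℝ) (h0 : 0 ≤ p) (h1 : p ≤ 1) :
    ∫ u, ((lo u p).card : ℝ) ∂(uu W) = p * Fintype.card W := by
  have h2 : ∀ u : W → ℝ, ((lo u p).card : ℝ) = ∑ w : W, Set.indicator (Set.Iic p) (fun _ => (1 : ℝ)) (u w) := by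
    intro u
    unfold lo
    rw [Finset.card_filter]
    push_cast
    refine Finset.sum_congr rfl fun w _ => ?_
    by_cases h : u w ≤ p
    · rw [if_pos h, Set.indicator_of_mem (show u w ∈ Set.Iic p from h)]
    · rw [if_neg h, Set.indicator_of_notMem (show u w ∉ Set.Iic p from h)]
  simp only [h2]
  have hi : Integrable (Set.indicator (Set.Iic p) (fun _ => (1 : ℝ)))
      ((volume : Measure ℝ).restrict (Set.Icc 0 1)) := (integrable_const _).indicator measurableSet_Iic
  rw [integral_finsetSum]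
  · have h3 : ∀ w : W, ∫ u : W → ℝ, Set.indicator (Set.Iic p) (fun _ => (1 : ℝ)) (u w) ∂(uu W) = p := by
      intro w
      unfold uu
      rw [integral_comp_eval (μ := fun _ : W => (volume : Measure ℝ).restrict (Set.Icc 0 1))
        hi.aestronglyMeasurable, integral_indicator measurableSet_Iic, setIntegral_const,
        smul_eq_mul, mul_one, measureReal_def, Measure.restrict_apply measurableSet_Iic]
      have : Set.Iic p ∩ Set.Icc 0 1 = Set.Icc 0 p := by
        ext x
        simp only [Set.mem_inter_iff, Set.mem_Iic, Set.mem_Icc]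
        constructor
        · rintro ⟨h1, h2, _⟩
          exact ⟨h2, h1⟩
        · rintro ⟨h3, h2⟩
          exact ⟨h2, h3, h2.trans h1⟩
      rw [this, Real.volume_Icc, sub_zero, ENNReal.toReal_ofReal h0]
    simp only [h3]
    rw [Finset.sum_const, Finset.card_univ, nsmul_eq_mul, mul_comm]
  · intro w _
    unfold uu
    exact integrable_comp_eval (μ := fun _ : W => (volume : Measure ℝ).restrict (Set.Icc 0 1)) hi

theorem t_BLOCK (hGRID : S_GRID) (hIID : S_IID) (hEP : S_EP) (hCCB : S_CCB) : S_BLOCK := by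
  intro k L M n W _ H r c e hM hn hc
  have hM' : (0 : ℝ) < M := Nat.cast_pos.2 hM
  have hne : Nonempty (Fin M) := ⟨⟨0, hM⟩⟩
  refine (hGRID n _ e (BL k L H r) M hn hM).trans ?_
  change ∫ U, hh (BL k L H r) M U ∂(uu (Fin k ⊕ (Fin L × W))) ≤ _
  have h1 := integral_map (μ := (uu (Fin k)).prod (Measure.pi fun _ : Fin L => uu W))
    (φ := Φ k L W) (Φ_meas k L W).aemeasurable (f := hh (BL k L H r) M)
    (by rw [(Φ_pres k L W).map_eq]; exact (hh_int _ M).aestronglyMeasurable)
  rw [(Φ_pres k L W).map_eq] at h1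
  rw [h1]
  -- the expectation of one block
  have hψ : ∀ j : Fin M, ∫ u, psi H M j u ∂(uu W) ≤ c + Fintype.card W / M := by
    intro j
    have hj0 : 0 ≤ (j : ℝ) / M := by positivity
    have hj1 : (j : ℝ) / M ≤ 1 := by
      rw [div_le_one hM']
      exact_mod_cast j.2.le
    have hj2 : 0 ≤ ((j : ℝ) + 1) / M := by positivity
    have hj3 : ((j : ℝ) + 1) / M ≤ 1 := by
      rw [div_le_one hM']
      exact_mod_cast j.2
    unfold psi
    have i1 := int_fin (W := W) ((j : ℝ) / M) (fun B => (CC H (B : Set W) : ℝ))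
    have i2 := int_fin (W := W) (((j : ℝ) + 1) / M) (fun B => (B.card : ℝ))
    have i3 := int_fin (W := W) ((j : ℝ) / M) (fun B => (B.card : ℝ))
    have i23 : Integrable (fun u : W → ℝ => ((lo u (((j : ℝ) + 1) / M)).card : ℝ)
      - ((lo u ((j : ℝ) / M)).card : ℝ)) (uu W) := i2.sub i3
    rw [integral_add i1 i23, integral_sub i2 i3, exp_card _ hj2 hj3, exp_card _ hj0 hj1,
      hEP W _ hj0 hj1 (fun B => (CC H (B : Set W) : ℝ))]
    have h2 : Ep ((j : ℝ) / M) (fun B : Finset W => (CC H (B : Set W) : ℝ)) ≤ c := hc _ hj0 hj1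
    have h3 : ((j : ℝ) + 1) / M * Fintype.card W - (j : ℝ) / M * Fintype.card W
        = Fintype.card W / M := by
      field_simp
      ring
    linarith
  have hI := hIID (W → ℝ) (uu W) M L (fun j => psi H M j) (2 * Fintype.card W)
    (c + Fintype.card W / M) hM (fun j => psi_meas H M j) (fun j u => psi_abs H hM j u) hψ
  -- the pointwise bound
  have hpt : ∀ z : (Fin k → ℝ) × (Fin L → W → ℝ), hh (BL k L H r) M (Φ k L W z)
      ≤ 2 * k + ⨆ j : Fin M, ∑ l : Fin L, psi H M j (z.2 l) := by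
    intro z
    unfold hh
    refine ciSup_le fun j => ?_
    have h2 := hCCB k L W H r (lo (Φ k L W z) ((j : ℝ) / M))
    simp only [lo_inr] at h2
    have h2' : (CC (BL k L H r) (lo (Φ k L W z) ((j : ℝ) / M) : Set _) : ℝ)
        ≤ k + ∑ l : Fin L, (CC H (lo (z.2 l) ((j : ℝ) / M) : Set W) : ℝ) := by
      exact_mod_cast h2
    have h3 := lo_card k L W z (((j : ℝ) + 1) / M)
    have h4 := lo_card k L W z ((j : ℝ) / M)
    have h5 : ((lo z.1 (((j : ℝ) + 1) / M)).card : ℝ) ≤ k := by
      have := Finset.card_le_univ (lo z.1 (((j : ℝ) + 1) / M))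
      rw [Fintype.card_fin] at this
      exact_mod_cast this
    have h6 : (0 : ℝ) ≤ ((lo z.1 ((j : ℝ) / M)).card : ℝ) := Nat.cast_nonneg _
    have h7 : ∑ l : Fin L, psi H M j (z.2 l)
        ≤ ⨆ j : Fin M, ∑ l : Fin L, psi H M j (z.2 l) :=
      le_ciSup (f := fun j : Fin M => ∑ l : Fin L, psi H M j (z.2 l))
        (Set.finite_range _).bddAbove j
    have h8 : ∑ l : Fin L, psi H M j (z.2 l)
        = ∑ l : Fin L, (CC H (lo (z.2 l) ((j : ℝ) / M) : Set W) : ℝ)
          + (∑ l : Fin L, ((lo (z.2 l) (((j : ℝ) + 1) / M)).card : ℝ)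
          - ∑ l : Fin L, ((lo (z.2 l) ((j : ℝ) / M)).card : ℝ)) := by
      unfold psi
      rw [Finset.sum_add_distrib, Finset.sum_sub_distrib]
    rw [h3, h4]
    push_cast
    linarith
  -- integrability
  have hsupm : Measurable (fun F : Fin L → W → ℝ => ⨆ j : Fin M, ∑ l : Fin L, psi H M j (F l)) :=
    Measurable.iSup fun j => Finset.measurable_sum _ fun l _ =>
      (psi_meas H M j).comp (measurable_pi_apply l)
  have hb : ∀ (j : Fin M) (F : Fin L → W → ℝ), |∑ l : Fin L, psi H M j (F l)|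
      ≤ L * (2 * Fintype.card W) := by
    intro j F
    refine (Finset.abs_sum_le_sum_abs _ _).trans ?_
    refine (Finset.sum_le_sum fun l _ => psi_abs H hM j (F l)).trans ?_
    simp
  have hsupi : Integrable (fun F : Fin L → W → ℝ => ⨆ j : Fin M, ∑ l : Fin L, psi H M j (F l))
      (Measure.pi fun _ : Fin L => uu W) := by
    refine Integrable.of_bound hsupm.aestronglyMeasurable (L * (2 * Fintype.card W))
      (Eventually.of_forall fun F => ?_)
    rw [Real.norm_eq_abs, abs_le]
    constructor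
    · exact (abs_le.1 (hb ⟨0, hM⟩ F)).1.trans
        (le_ciSup (f := fun j : Fin M => ∑ l : Fin L, psi H M j (F l))
        (Set.finite_range _).bddAbove ⟨0, hM⟩)
    · exact ciSup_le fun j => (abs_le.1 (hb j F)).2
  have hsupi2 : Integrable (fun z : (Fin k → ℝ) × (Fin L → W → ℝ) =>
      ⨆ j : Fin M, ∑ l : Fin L, psi H M j (z.2 l))
      ((uu (Fin k)).prod (Measure.pi fun _ : Fin L => uu W)) := by
    exact hsupi.comp_snd _
  have hint1 : Integrable (fun z => hh (BL k L H r) M (Φ k L W z))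
      ((uu (Fin k)).prod (Measure.pi fun _ : Fin L => uu W)) :=
    (Φ_pres k L W).integrable_comp_of_integrable (hh_int _ M)
  calc ∫ z, hh (BL k L H r) M (Φ k L W z) ∂((uu (Fin k)).prod (Measure.pi fun _ : Fin L => uu W))
      ≤ ∫ z : (Fin k → ℝ) × (Fin L → W → ℝ), (2 * (k : ℝ) + ⨆ j : Fin M, ∑ l : Fin L, psi H M j (z.2 l))
        ∂((uu (Fin k)).prod (Measure.pi fun _ : Fin L => uu W)) :=
        integral_mono hint1 ((integrable_const _).add hsupi2) hpt
    _ = 2 * k + ∫ F : Fin L → W → ℝ, (⨆ j : Fin M, ∑ l : Fin L, psi H M j (F l))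
        ∂(Measure.pi fun _ : Fin L => uu W) := by
        rw [integral_add (integrable_const _) hsupi2]
        congr 1
        · simp
        · rw [integral_fun_snd (μ := uu (Fin k)) (ν := Measure.pi fun _ : Fin L => uu W)
            (f := fun F : Fin L → W → ℝ => ⨆ j : Fin M, ∑ l : Fin L, psi H M j (F l))]
          simp
    _ ≤ 2 * k + (L * (c + Fintype.card W / M) + M * (2 * Fintype.card W) * √L) := by
        gcongr
    _ = 2 * k + L * (c + Fintype.card W / M) + M * (2 * Fintype.card W) * √L := by ring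

end Pool.Agent.Q121.LK.BLOCK
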