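import Pool.Agent.Q264.LK.Stm

/-!
Project LK (helper264), job IID.
-/

set_option autoImplicit false

open Finset MeasureTheory Filter Topology ProbabilityTheory
open scoped Classical

namespace Pool.Agent.Q121.LK

open Pool.Agent.Q264.LK

theorem sq_int_abs {Ω : Type*} [MeasurableSpace Ω] (μ : Measure Ω) [IsProbabilityMeasure μ]
    (Y : Ω → ℝ) (hY : MemLp Y 2 μ) : (∫ ω, |Y ω| ∂μ) ^ 2 ≤ ∫ ω, (Y ω) ^ 2 ∂μ := by
  have h1 : MemLp (fun ω => |Y ω|) 2 μ := hY.abs
  have h2 := variance_nonneg (fun ω => |Y ω|) μ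
  rw [variance_eq_sub h1] at h2
  have h3 : ∫ ω, ((fun ω => |Y ω|) ^ 2) ω ∂μ = ∫ ω, (Y ω) ^ 2 ∂μ := by
    refine integral_congr_ae (Eventually.of_forall fun ω => ?_)
    simp
  rw [h3] at h2
  linarith

theorem t_IID : S_IID := by
  intro Ω _ ν _ M L ψ K c hM hm hK hc
  have hne : Nonempty (Fin M) := ⟨⟨0, hM⟩⟩
  have hΩ : Nonempty Ω := nonempty_of_isProbabilityMeasure ν
  have hK0 : 0 ≤ K := (abs_nonneg _).trans (hK ⟨0, hM⟩ hΩ.some)
  set P : Measure (Fin L → Ω) := Measure.pi fun _ : Fin L => ν with hP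
  set a : Fin M → ℝ := fun j => ∫ ω, ψ j ω ∂ν with ha
  have hψi : ∀ j, Integrable (ψ j) ν := fun j =>
    Integrable.of_bound (hm j).aestronglyMeasurable K (Eventually.of_forall fun ω => hK j ω)
  have hψ2 : ∀ j, MemLp (ψ j) 2 ν := fun j =>
    MemLp.of_bound (hm j).aestronglyMeasurable K (Eventually.of_forall fun ω => hK j ω)
  have hXm : ∀ j, Measurable (fun x : Fin L → Ω => ∑ l : Fin L, ψ j (x l)) := fun j =>
    Finset.measurable_sum _ fun l _ => (hm j).comp (measurable_pi_apply l)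
  have hXb : ∀ j (x : Fin L → Ω), ‖∑ l : Fin L, ψ j (x l)‖ ≤ L * K := by
    intro j x
    refine (norm_sum_le _ _).trans ?_
    refine (Finset.sum_le_sum fun l _ => hK j (x l)).trans ?_
    simp
  have hX2 : ∀ j, MemLp (fun x : Fin L → Ω => ∑ l : Fin L, ψ j (x l)) 2 P := fun j =>
    MemLp.of_bound (hXm j).aestronglyMeasurable (L * K) (Eventually.of_forall (hXb j))
  have hXi : ∀ j, Integrable (fun x : Fin L → Ω => ∑ l : Fin L, ψ j (x l)) P := fun j =>
    Integrable.of_bound (hXm j).aestronglyMeasurable (L * K) (Eventually.of_forall (hXb j))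
  have hEX : ∀ j, ∫ x, (∑ l : Fin L, ψ j (x l)) ∂P = L * a j := by
    intro j
    rw [integral_finsetSum]
    · have : ∀ l : Fin L, ∫ x : Fin L → Ω, ψ j (x l) ∂P = a j := by
        intro l
        exact integral_comp_eval (μ := fun _ : Fin L => ν) (hm j).aestronglyMeasurable
      simp [this]
    · intro l _
      exact integrable_comp_eval (μ := fun _ : Fin L => ν) (hψi j)
  have hvar : ∀ j, ∫ x, ((∑ l : Fin L, ψ j (x l)) - L * a j) ^ 2 ∂P ≤ L * K ^ 2 := by
    intro j
    have h1 := variance_sum_pi (μ := fun _ : Fin L => ν) (X := fun _ : Fin L => ψ j)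
      (fun _ => hψ2 j)
    have h2 : (∑ l : Fin L, fun x : Fin L → Ω => ψ j (x l))
        = fun x : Fin L → Ω => ∑ l : Fin L, ψ j (x l) := by
      funext x
      rw [Finset.sum_apply]
    rw [h2] at h1
    have h3 := variance_eq_integral (μ := P) (X := fun x : Fin L → Ω => ∑ l : Fin L, ψ j (x l))
      (hXm j).aemeasurable
    rw [hEX] at h3
    rw [← h3]
    have h4 : Var[ψ j; ν] ≤ K ^ 2 := by
      refine (variance_le_expectation_sq (hm j).aestronglyMeasurable).trans ?_
      have h5 : ∫ ω, (ψ j ^ 2) ω ∂ν ≤ ∫ _ω, K ^ 2 ∂ν := by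
        refine integral_mono_of_nonneg (Eventually.of_forall fun ω => ?_) (integrable_const _)
          (Eventually.of_forall fun ω => ?_)
        · exact sq_nonneg _
        · show (ψ j ω) ^ 2 ≤ K ^ 2
          rw [← sq_abs]
          exact pow_le_pow_left₀ (abs_nonneg _) (hK j ω) 2
      simpa using h5
    calc Var[fun x : Fin L → Ω => ∑ l : Fin L, ψ j (x l); P] = ∑ _l : Fin L, Var[ψ j; ν] := h1
      _ = L * Var[ψ j; ν] := by simp
      _ ≤ L * K ^ 2 := by gcongr
  have habs : ∀ j, ∫ x, |(∑ l : Fin L, ψ j (x l)) - L * a j| ∂P ≤ K * √L := by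
    intro j
    have h1 := sq_int_abs P (fun x : Fin L → Ω => (∑ l : Fin L, ψ j (x l)) - L * a j)
      ((hX2 j).sub (memLp_const _))
    have h2 := h1.trans (hvar j)
    have h3 : 0 ≤ ∫ x, |(∑ l : Fin L, ψ j (x l)) - L * a j| ∂P :=
      integral_nonneg fun x => abs_nonneg _
    have h4 : (K * √L) ^ 2 = L * K ^ 2 := by
      rw [mul_pow, Real.sq_sqrt (Nat.cast_nonneg L)]
      ring
    rw [← h4] at h2
    exact le_of_sq_le_sq h2 (by positivity)
  have hpt : ∀ x : Fin L → Ω, (⨆ j : Fin M, ∑ l : Fin L, ψ j (x l))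
      ≤ L * c + ∑ j : Fin M, |(∑ l : Fin L, ψ j (x l)) - L * a j| := by
    intro x
    refine ciSup_le fun j => ?_
    have h1 : |(∑ l : Fin L, ψ j (x l)) - L * a j|
        ≤ ∑ j : Fin M, |(∑ l : Fin L, ψ j (x l)) - L * a j| :=
      Finset.single_le_sum (f := fun j => |(∑ l : Fin L, ψ j (x l)) - L * a j|)
        (fun j _ => abs_nonneg _) (Finset.mem_univ j)
    have h2 := le_abs_self ((∑ l : Fin L, ψ j (x l)) - L * a j)
    have h3 : (L : ℝ) * a j ≤ L * c := mul_le_mul_of_nonneg_left (hc j) (Nat.cast_nonneg L)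
    linarith
  have habsi : ∀ j, Integrable (fun x : Fin L → Ω => |(∑ l : Fin L, ψ j (x l)) - L * a j|) P :=
    fun j => ((hXi j).sub (integrable_const _)).abs
  have hsupm : Measurable (fun x : Fin L → Ω => ⨆ j : Fin M, ∑ l : Fin L, ψ j (x l)) :=
    Measurable.iSup fun j => hXm j
  have hsupi : Integrable (fun x : Fin L → Ω => ⨆ j : Fin M, ∑ l : Fin L, ψ j (x l)) P := by
    refine Integrable.of_bound hsupm.aestronglyMeasurable (L * K) (Eventually.of_forall fun x => ?_)
    rw [Real.norm_eq_abs, abs_le]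
    constructor
    · have h1 := (abs_le.1 (hXb ⟨0, hM⟩ x)).1
      exact h1.trans (le_ciSup (f := fun j : Fin M => ∑ l : Fin L, ψ j (x l))
        (Set.finite_range _).bddAbove ⟨0, hM⟩)
    · exact ciSup_le fun j => (abs_le.1 (hXb j x)).2
  calc ∫ x : Fin L → Ω, (⨆ j : Fin M, ∑ l : Fin L, ψ j (x l)) ∂P
      ≤ ∫ x : Fin L → Ω, (L * c + ∑ j : Fin M, |(∑ l : Fin L, ψ j (x l)) - L * a j|) ∂P :=
        integral_mono hsupi ((integrable_const _).add
          (integrable_finsetSum _ fun j _ => habsi j)) hpt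
    _ = L * c + ∑ j : Fin M, ∫ x : Fin L → Ω, |(∑ l : Fin L, ψ j (x l)) - L * a j| ∂P := by
        rw [integral_add (integrable_const _) (integrable_finsetSum _ fun j _ => habsi j),
          integral_finsetSum _ fun j _ => habsi j]
        simp
    _ ≤ L * c + ∑ _j : Fin M, K * √L := by
        gcongr with j
        exact habs j
    _ = L * c + M * K * √L := by
        simp
        ring

end Pool.Agent.Q121.LK
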