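import Pool.Agent.Q264.LK.Stm

/-!
Project LK (helper264), job SAW.
-/

set_option autoImplicit false

open Finset MeasureTheory Filter Topology
open scoped Classical

namespace Pool.Agent.Q121.LK.SAW

open Pool.Agent.Q264.LK

variable {V : Type} [Fintype V]

/-- closure under adjacency -/
theorem reach_closed (H : SimpleGraph V) (C : Set V) (hC : ∀ a b, a ∈ C → H.Adj a b → b ∈ C)
    {a b : V} (h : H.Reachable a b) (ha : a ∈ C) : b ∈ C := by
  obtain ⟨w⟩ := h
  induction w with
  | nil => exact ha
  | cons hadj _ ih => exact ih (hC _ _ ha hadj)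

theorem mem_cl (G : SimpleGraph V) (B : Finset V) (v u : V) :
    u ∈ cl G B v ↔ (res G B).Reachable v u := by
  unfold cl
  simp

/-- the cluster of `w` in `insert w T` -/
theorem cl_sub (G : SimpleGraph V) (T : Finset V) (w : V) (hw : w ∉ T) :
    cl G (insert w T) w ⊆ insert w ((T.filter fun x => G.Adj w x).biUnion fun x => cl G T x) := by
  intro u hu
  rw [mem_cl] at hu
  have := reach_closed (res G (insert w T))
    {u | u ∈ insert w ((T.filter fun x => G.Adj w x).biUnion fun x => cl G T x)} ?_ hu ?_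
  · exact this
  · intro a b ha hab
    have hab' : G.Adj a b ∧ a ∈ insert w T ∧ b ∈ insert w T := hab
    obtain ⟨h1, h2, h3⟩ := hab'
    show b ∈ insert w ((T.filter fun x => G.Adj w x).biUnion fun x => cl G T x)
    rcases Finset.mem_insert.1 h3 with rfl | hbT
    · exact Finset.mem_insert_self _ _
    · rcases Finset.mem_insert.1 h2 with rfl | haT
      · refine Finset.mem_insert_of_mem (Finset.mem_biUnion.2 ⟨b, ?_, ?_⟩)
        · exact Finset.mem_filter.2 ⟨hbT, h1⟩
        · rw [mem_cl]
      · have ha' : a ∈ insert w ((T.filter fun x => G.Adj w x).biUnion fun x => cl G T x) := ha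
        rcases Finset.mem_insert.1 ha' with rfl | ha''
        · exact absurd haT hw
        · obtain ⟨x, hx, hax⟩ := Finset.mem_biUnion.1 ha''
          refine Finset.mem_insert_of_mem (Finset.mem_biUnion.2 ⟨x, hx, ?_⟩)
          rw [mem_cl] at hax ⊢
          exact hax.trans (SimpleGraph.Adj.reachable ⟨h1, haT, hbT⟩)
  · exact Finset.mem_insert_self _ _

theorem cl_card (G : SimpleGraph V) (T : Finset V) (w : V) (hw : w ∉ T) :
    ((cl G (insert w T) w).card : ℝ) ≤ 1 + ∑ x ∈ T.filter (fun x => G.Adj w x), ((cl G T x).card : ℝ) := by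
  have h1 := Finset.card_le_card (cl_sub G T w hw)
  have h2 := (Finset.card_insert_le w ((T.filter fun x => G.Adj w x).biUnion fun x => cl G T x))
  have h3 := Finset.card_biUnion_le (s := T.filter fun x => G.Adj w x) (t := fun x => cl G T x)
  have h4 : (cl G (insert w T) w).card ≤ 1 + ∑ x ∈ T.filter (fun x => G.Adj w x), (cl G T x).card := by
    omega
  exact_mod_cast h4

/-- the weights -/
noncomputable def wt (V : Type) [Fintype V] (p : ℝ) (B : Finset V) : ℝ :=
  p ^ B.card * (1 - p) ^ (Fintype.card V - B.card)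

theorem wt_nonneg {p : ℝ} (h0 : 0 ≤ p) (h1 : p ≤ 1) (B : Finset V) : 0 ≤ wt V p B := by
  unfold wt
  have : 0 ≤ 1 - p := by linarith
  positivity

theorem Ep_mono {p : ℝ} (h0 : 0 ≤ p) (h1 : p ≤ 1) {F F' : Finset V → ℝ} (h : ∀ B, F B ≤ F' B) :
    Ep p F ≤ Ep p F' := by
  unfold Ep
  refine Finset.sum_le_sum fun B _ => ?_
  exact mul_le_mul_of_nonneg_left (h B) (wt_nonneg h0 h1 B)

theorem Ep_sum {p : ℝ} {ι : Type*} (s : Finset ι) (F : ι → Finset V → ℝ) :
    Ep p (fun B => ∑ i ∈ s, F i B) = ∑ i ∈ s, Ep p (F i) := by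
  unfold Ep
  rw [Finset.sum_comm]
  refine Finset.sum_congr rfl fun B _ => ?_
  rw [Finset.mul_sum]

theorem Ep_add {p : ℝ} (F F' : Finset V → ℝ) :
    Ep p (fun B => F B + F' B) = Ep p F + Ep p F' := by
  unfold Ep
  rw [← Finset.sum_add_distrib]
  refine Finset.sum_congr rfl fun B _ => ?_
  ring

theorem Ep_one (p : ℝ) : Ep p (fun _ : Finset V => (1 : ℝ)) = 1 := by
  unfold Ep
  simp only [mul_one]
  have h := Finset.sum_pow_mul_eq_add_pow p (1 - p) (Finset.univ : Finset V)
  rw [Finset.powerset_univ, Finset.card_univ] at h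
  rw [h]
  simp

/-- splitting off a vertex -/
theorem Ep_split (p : ℝ) (x : V) (F : Finset V → ℝ) :
    Ep p F = ∑ B ∈ (univ.erase x).powerset, (wt V p B * F B + wt V p (insert x B) * F (insert x B)) := by
  have h1 : (Finset.univ : Finset (Finset V)) = (insert x (univ.erase x)).powerset := by
    rw [Finset.insert_erase (Finset.mem_univ x), Finset.powerset_univ]
  unfold Ep
  rw [h1, Finset.sum_powerset_insert (Finset.notMem_erase x _), ← Finset.sum_add_distrib]
  rfl

theorem wt_add (p : ℝ) (x : V) (B : Finset V) (hB : x ∉ B) :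
    wt V p (insert x B) = p * (wt V p B + wt V p (insert x B)) := by
  unfold wt
  rw [Finset.card_insert_of_notMem hB]
  have hle : B.card + 1 ≤ Fintype.card V := by
    rw [← Finset.card_insert_of_notMem hB]
    exact Finset.card_le_univ _
  have h1 : Fintype.card V - B.card = (Fintype.card V - (B.card + 1)) + 1 := by omega
  rw [h1, pow_succ, pow_succ]
  ring

/-- independence -/
theorem Ep_indep (p : ℝ) (x : V) (g : Finset V → ℝ) :
    Ep p (fun B => if x ∈ B then g (B.erase x) else 0) = p * Ep p (fun B => g (B.erase x)) := by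
  rw [Ep_split p x, Ep_split p x, Finset.mul_sum]
  refine Finset.sum_congr rfl fun B hB => ?_
  have hx : x ∉ B := by
    intro h
    exact (Finset.notMem_erase x _) (Finset.mem_powerset.1 hB h)
  rw [if_neg hx, if_pos (Finset.mem_insert_self _ _), Finset.erase_insert hx,
    Finset.erase_eq_of_notMem hx, mul_zero, zero_add]
  have h := wt_add p x B hx
  linear_combination (g B) * h

/-- expected cluster size of `w` in `S` -/
noncomputable def psi (G : SimpleGraph V) (p : ℝ) (S : Finset V) (w : V) : ℝ :=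
  Ep p fun B : Finset V => ((cl G (insert w (B ∩ S)) w).card : ℝ)

theorem inter_erase_aux (B S : Finset V) (x : V) : B.erase x ∩ S.erase x = B ∩ S.erase x := by
  ext y
  simp only [Finset.mem_inter, Finset.mem_erase]
  tauto

theorem psi_step (G : SimpleGraph V) (p : ℝ) (S : Finset V) (x : V) :
    Ep p (fun B : Finset V => if x ∈ B then
      ((cl G (insert x ((B.erase x) ∩ (S.erase x))) x).card : ℝ) else 0)
      = p * psi G p (S.erase x) x := by
  have h2 : Ep p (fun B : Finset V => if x ∈ B then
      ((cl G (insert x ((B.erase x) ∩ (S.erase x))) x).card : ℝ) else 0)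
      = p * Ep p (fun B : Finset V => ((cl G (insert x ((B.erase x) ∩ (S.erase x))) x).card : ℝ)) :=
    Ep_indep p x (fun C => ((cl G (insert x (C ∩ (S.erase x))) x).card : ℝ))
  have h3 : (fun B : Finset V => ((cl G (insert x ((B.erase x) ∩ (S.erase x))) x).card : ℝ))
      = fun B : Finset V => ((cl G (insert x (B ∩ (S.erase x))) x).card : ℝ) := by
    funext B
    rw [inter_erase_aux]
  rw [h2, h3]
  rfl

theorem psi_rec (G : SimpleGraph V) {p : ℝ} (h0 : 0 ≤ p) (h1 : p ≤ 1) (S : Finset V) (w : V)
    (hw : w ∉ S) :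
    psi G p S w ≤ 1 + ∑ x ∈ S.filter (fun x => G.Adj w x), p * psi G p (S.erase x) x := by
  unfold psi
  have hpt : ∀ B : Finset V, ((cl G (insert w (B ∩ S)) w).card : ℝ) ≤
      1 + ∑ x ∈ S.filter (fun x => G.Adj w x),
        (if x ∈ B then ((cl G (insert x ((B.erase x) ∩ (S.erase x))) x).card : ℝ) else 0) := by
    intro B
    have hw' : w ∉ B ∩ S := fun h => hw (Finset.mem_inter.1 h).2
    refine (cl_card G (B ∩ S) w hw').trans ?_
    refine add_le_add le_rfl (le_of_eq ?_)
    rw [← Finset.sum_filter]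
    have hset : (B ∩ S).filter (fun x => G.Adj w x)
        = (S.filter (fun x => G.Adj w x)).filter (fun x => x ∈ B) := by
      ext x
      simp only [Finset.mem_filter, Finset.mem_inter]
      tauto
    rw [hset]
    refine Finset.sum_congr rfl fun x hx => ?_
    have hxB : x ∈ B := (Finset.mem_filter.1 hx).2
    have hxS : x ∈ S := (Finset.mem_filter.1 (Finset.mem_filter.1 hx).1).1
    have : insert x ((B.erase x) ∩ (S.erase x)) = B ∩ S := by
      ext y
      simp only [Finset.mem_insert, Finset.mem_inter, Finset.mem_erase]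
      constructor
      · rintro (rfl | h)
        · exact ⟨hxB, hxS⟩
        · exact ⟨h.1.2, h.2.2⟩
      · rintro ⟨hB, hS⟩
        by_cases hy : y = x
        · exact Or.inl hy
        · exact Or.inr ⟨⟨hy, hB⟩, hy, hS⟩
    rw [this]
  refine (Ep_mono h0 h1 hpt).trans (le_of_eq ?_)
  rw [Ep_add, Ep_one, Ep_sum]
  congr 1
  refine Finset.sum_congr rfl fun x _ => ?_
  exact psi_step G p S x

theorem psi_bound (G : SimpleGraph V) {p : ℝ} (h0 : 0 ≤ p) (h1 : p ≤ 1) (Δ : ℕ) (hΔ : 1 ≤ Δ)
    (hp : ((Δ : ℝ) - 1) * p < 1) (hdeg : ∀ v, dg G v ≤ Δ) (m : ℕ) :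
    ∀ S : Finset V, S.card = m → ∀ w, w ∉ S → (S.filter fun x => G.Adj w x).card ≤ Δ - 1 →
      psi G p S w ≤ 1 / (1 - ((Δ : ℝ) - 1) * p) := by
  induction m using Nat.strong_induction_on with
  | _ m ih =>
    intro S hS w hw hcard
    have hpos : 0 < 1 - ((Δ : ℝ) - 1) * p := by linarith
    refine (psi_rec G h0 h1 S w hw).trans ?_
    have hx : ∀ x ∈ S.filter (fun x => G.Adj w x), p * psi G p (S.erase x) x
        ≤ p * (1 / (1 - ((Δ : ℝ) - 1) * p)) := by
      intro x hx
      have hxS : x ∈ S := (Finset.mem_filter.1 hx).1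
      have hadj : G.Adj w x := (Finset.mem_filter.1 hx).2
      refine mul_le_mul_of_nonneg_left ?_ h0
      refine ih (S.erase x).card ?_ (S.erase x) rfl x (Finset.notMem_erase x S) ?_
      · rw [Finset.card_erase_of_mem hxS, ← hS]
        have : 0 < S.card := Finset.card_pos.2 ⟨x, hxS⟩
        omega
      · have hsub : (S.erase x).filter (fun y => G.Adj x y)
            ⊆ (univ.filter fun y => G.Adj x y).erase w := by
          intro y hy
          have hyS := (Finset.mem_filter.1 hy).1
          have hya := (Finset.mem_filter.1 hy).2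
          refine Finset.mem_erase.2 ⟨?_, Finset.mem_filter.2 ⟨Finset.mem_univ _, hya⟩⟩
          rintro rfl
          exact hw (Finset.mem_of_mem_erase hyS)
        have h3 := Finset.card_le_card hsub
        rw [Finset.card_erase_of_mem (Finset.mem_filter.2 ⟨Finset.mem_univ _, hadj.symm⟩)] at h3
        have h4 : (univ.filter fun y => G.Adj x y).card ≤ Δ := hdeg x
        exact h3.trans (Nat.sub_le_sub_right h4 1)
    have h5 := Finset.sum_le_sum hx
    rw [Finset.sum_const, nsmul_eq_mul] at h5
    have h6 : ((S.filter (fun x => G.Adj w x)).card : ℝ) ≤ (Δ : ℝ) - 1 := by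
      have : ((Δ - 1 : ℕ) : ℝ) = (Δ : ℝ) - 1 := by
        rw [Nat.cast_sub hΔ]
        simp
      rw [← this]
      exact_mod_cast hcard
    have h7 : 0 ≤ p * (1 / (1 - ((Δ : ℝ) - 1) * p)) := by positivity
    have h8 : ((S.filter (fun x => G.Adj w x)).card : ℝ) * (p * (1 / (1 - ((Δ : ℝ) - 1) * p)))
        ≤ ((Δ : ℝ) - 1) * (p * (1 / (1 - ((Δ : ℝ) - 1) * p))) :=
      mul_le_mul_of_nonneg_right h6 h7
    have h9 : 1 + ((Δ : ℝ) - 1) * (p * (1 / (1 - ((Δ : ℝ) - 1) * p)))
        = 1 / (1 - ((Δ : ℝ) - 1) * p) := by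
      field_simp
      ring
    linarith

theorem t_SAW : S_SAW := by
  intro V _ G Δ p hΔ h0 h1 hp hdeg
  have hpos : 0 < 1 - ((Δ : ℝ) - 1) * p := by linarith
  set m : ℝ := 1 / (1 - ((Δ : ℝ) - 1) * p) with hm
  have hm0 : 0 < m := by positivity
  have hmeq : 1 + ((Δ : ℝ) - 1) * p * m = m := by
    rw [hm]
    field_simp
    ring
  -- the general bound
  have hgen : ∀ v : V, psi G p (univ.erase v) v ≤ 2 * m := by
    intro v
    refine (psi_rec G h0 h1 (univ.erase v) v (Finset.notMem_erase v _)).trans ?_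
    have hx : ∀ x ∈ (univ.erase v).filter (fun x => G.Adj v x),
        p * psi G p ((univ.erase v).erase x) x ≤ p * m := by
      intro x hx
      have hadj : G.Adj v x := (Finset.mem_filter.1 hx).2
      refine mul_le_mul_of_nonneg_left ?_ h0
      refine psi_bound G h0 h1 Δ hΔ hp hdeg _ _ rfl x (Finset.notMem_erase x _) ?_
      have hsub : ((univ.erase v).erase x).filter (fun y => G.Adj x y)
          ⊆ (univ.filter fun y => G.Adj x y).erase v := by
        intro y hy
        have hyS := (Finset.mem_filter.1 hy).1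
        have hya := (Finset.mem_filter.1 hy).2
        refine Finset.mem_erase.2 ⟨?_, Finset.mem_filter.2 ⟨Finset.mem_univ _, hya⟩⟩
        rintro rfl
        exact (Finset.notMem_erase _ _) (Finset.mem_of_mem_erase hyS)
      have h3 := Finset.card_le_card hsub
      rw [Finset.card_erase_of_mem (Finset.mem_filter.2 ⟨Finset.mem_univ _, hadj.symm⟩)] at h3
      have h4 : (univ.filter fun y => G.Adj x y).card ≤ Δ := hdeg x
      exact h3.trans (Nat.sub_le_sub_right h4 1)
    have h5 := Finset.sum_le_sum hx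
    rw [Finset.sum_const, nsmul_eq_mul] at h5
    have h6 : (((univ.erase v).filter (fun x => G.Adj v x)).card : ℝ) ≤ Δ := by
      have h7 : ((univ.erase v).filter (fun x => G.Adj v x)).card ≤ dg G v :=
        Finset.card_le_card (Finset.filter_subset_filter _ (Finset.erase_subset _ _))
      exact_mod_cast h7.trans (hdeg v)
    have h7 : 0 ≤ p * m := by positivity
    have h8 := mul_le_mul_of_nonneg_right h6 h7
    have h9 : p * m ≤ 1 * m := mul_le_mul_of_nonneg_right h1 hm0.le
    nlinarith
  have hpt : ∀ B : Finset V, ∑ v ∈ B, ((cl G B v).card : ℝ)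
      = ∑ v : V, (if v ∈ B then ((cl G (insert v (B.erase v ∩ univ.erase v)) v).card : ℝ) else 0) := by
    intro B
    rw [← Finset.sum_filter]
    have hset : univ.filter (fun v => v ∈ B) = B := by ext; simp
    rw [hset]
    refine Finset.sum_congr rfl fun v hv => ?_
    have : insert v (B.erase v ∩ univ.erase v) = B := by
      ext y
      simp only [Finset.mem_insert, Finset.mem_inter, Finset.mem_erase, Finset.mem_univ, and_true]
      constructor
      · rintro (rfl | h)
        · exact hv
        · exact h.1.2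
      · intro hy
        by_cases hyv : y = v
        · exact Or.inl hyv
        · exact Or.inr ⟨⟨hyv, hy⟩, hyv⟩
    rw [this]
  simp only [hpt]
  rw [Ep_sum]
  have hv : ∀ v ∈ (univ : Finset V), Ep p (fun B : Finset V =>
      if v ∈ B then ((cl G (insert v (B.erase v ∩ univ.erase v)) v).card : ℝ) else 0) ≤ 2 * m := by
    intro v _
    rw [psi_step G p univ v]
    have h4 := hgen v
    have h5 : p * psi G p (univ.erase v) v ≤ p * (2 * m) := mul_le_mul_of_nonneg_left h4 h0
    have h6 : p * (2 * m) ≤ 1 * (2 * m) := mul_le_mul_of_nonneg_right h1 (by positivity)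
    linarith
  refine (Finset.sum_le_sum hv).trans (le_of_eq ?_)
  rw [Finset.sum_const, Finset.card_univ, nsmul_eq_mul, hm]
  ring

end Pool.Agent.Q121.LK.SAW
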